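import Pool.Agent.Helper49.LT.StC

open MeasureTheory Set Filter Metric

namespace Pool.Agent.Helper34.LT

open Helper49.LT Helper97.CB

/-- the integrand of the base functional -/
noncomputable def La (sp : (ℂ × ℂ) × (ℝ × ℝ) → ℝ) (v : ℂ × ℂ) : ℝ :=
  cc sp (v, 0) + sg v - 3 / 2 * h0 v

/-- its even part of order two -/
noncomputable def L2 (v : ℂ × ℂ) : ℝ :=
  27 * (k3 v * k5 v + s3 v * s5 v) - 9 * (k5 v ^ 2 - s5 v ^ 2)

/-- the even remainder -/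
noncomputable def Ps (sp : (ℂ × ℂ) × (ℝ × ℝ) → ℝ) (v : ℂ × ℂ) : ℝ :=
  (La sp v + La sp (-v)) / 2 - L2 v

theorem L2_neg (v : ℂ × ℂ) : L2 (-v) = L2 v := by
  simp [L2, k3, k5, s3, s5]

theorem Ps_neg (sp : (ℂ × ℂ) × (ℝ × ℝ) → ℝ) (v : ℂ × ℂ) : Ps sp (-v) = Ps sp v := by
  unfold Ps
  rw [neg_neg, L2_neg]; ring

theorem sg_half (v : ℂ × ℂ) (hv : ‖v‖ ≤ 1 / 12) : 1 / 2 ≤ sg v := by
  have h := abs_sg_sub v
  rw [abs_le] at h
  linarith [h.1]

theorem sg_taylor (v : ℂ × ℂ) (hv : ‖v‖ ≤ 1 / 12) :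
    |sg v - (1 - 2 * k3 v - 4 * k5 v + (2 * s3 v + 4 * s5 v) ^ 2 / 2)| ≤ 216 * ‖v‖ ^ 3 := by
  set A := 1 - 2 * k3 v - 4 * k5 v with hA
  set B := 2 * s3 v + 4 * s5 v with hB
  set S := sg v with hS
  set n := ‖v‖ with hn
  have n0 : 0 ≤ n := norm_nonneg v
  have hk3 : |k3 v| ≤ n := (abs_k3 v).trans (fst_le v)
  have hk5 : |k5 v| ≤ n := (abs_k5 v).trans (snd_le v)
  have hs3 : |s3 v| ≤ n := (abs_s3 v).trans (fst_le v)
  have hs5 : |s5 v| ≤ n := (abs_s5 v).trans (snd_le v)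
  rw [abs_le] at hk3 hk5 hs3 hs5
  have hS1 : |S - 1| ≤ 6 * n := abs_sg_sub v
  rw [abs_le] at hS1
  have sq : S ^ 2 = A ^ 2 + B ^ 2 := by
    rw [hS]
    unfold sg
    rw [← Complex.normSq_eq_norm_sq, Complex.normSq_apply]
    simp only [hA, hB, k3, k5, s3, s5, Complex.sub_re, Complex.sub_im, Complex.one_re,
      Complex.one_im, Complex.mul_re, Complex.mul_im, Complex.re_ofNat, Complex.im_ofNat]
    ring
  have hB6 : |B| ≤ 6 * n := by
    rw [abs_le]; constructor <;> linarith [hs3.1, hs3.2, hs5.1, hs5.2]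
  have hBsq : B ^ 2 ≤ 36 * n ^ 2 := by
    have := sq_le_sq' (by linarith [(abs_le.1 hB6).1]) (abs_le.1 hB6).2
    nlinarith
  have hT : 1 ≤ S + A := by linarith [hk3.2, hk5.2, hS1.1]
  have hSA : |S - A| ≤ B ^ 2 := by
    have e : (S - A) * (S + A) = B ^ 2 := by ring_nf; rw [sq]; ring
    have e2 : |S - A| * (S + A) = B ^ 2 := by
      rw [← abs_of_nonneg (show 0 ≤ S + A by linarith), ← abs_mul, e, abs_of_nonneg (sq_nonneg B)]
    nlinarith [abs_nonneg (S - A)]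
  have h2T : |2 - (S + A)| ≤ 12 * n := by
    rw [abs_le]; constructor <;> linarith [hk3.1, hk3.2, hk5.1, hk5.2, hS1.1, hS1.2]
  have key : S - (A + B ^ 2 / 2) = (S - A) * (2 - (S + A)) / 2 := by
    have e : (S - A) * (S + A) = B ^ 2 := by ring_nf; rw [sq]; ring
    nlinarith
  rw [key, abs_div, abs_mul, abs_of_pos (show (0 : ℝ) < 2 by norm_num)]
  have hp : |S - A| * |2 - (S + A)| ≤ (36 * n ^ 2) * (12 * n) :=
    mul_le_mul (hSA.trans hBsq) h2T (abs_nonneg _) (by positivity)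
  nlinarith [pow_nonneg n0 3]

theorem norm_pr (v : ℂ × ℂ) : ‖((v, (0 : ℝ × ℝ)) : (ℂ × ℂ) × (ℝ × ℝ))‖ = ‖v‖ := by
  rw [Prod.norm_def]; simp

theorem La_taylor {sp : (ℂ × ℂ) × (ℝ × ℝ) → ℝ} {C r₁ : ℝ}
    (h : ∀ p ∈ ball (0 : (ℂ × ℂ) × (ℝ × ℝ)) r₁, |cc sp p - tcc p| ≤ C * ‖p‖ ^ 3)
    (v : ℂ × ℂ) (hv : ‖v‖ < r₁) (hv2 : ‖v‖ ≤ 1 / 12) :
    |La sp v - (-(5 / 2) * k3 v + 3 / 2 * k5 v + L2 v)| ≤ (C + 216) * ‖v‖ ^ 3 := by
  have h1 := h (v, 0) (by rw [mem_ball_zero_iff, norm_pr]; exact hv)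
  rw [norm_pr] at h1
  have h2 := sg_taylor v hv2
  have e : La sp v - (-(5 / 2) * k3 v + 3 / 2 * k5 v + L2 v) =
      (cc sp (v, 0) - tcc (v, 0)) +
        (sg v - (1 - 2 * k3 v - 4 * k5 v + (2 * s3 v + 4 * s5 v) ^ 2 / 2)) := by
    simp only [La, L2, tcc, h0]
    simp only [Prod.fst_zero, Prod.snd_zero]
    ring
  rw [e]
  calc _ ≤ |cc sp (v, 0) - tcc (v, 0)| +
        |sg v - (1 - 2 * k3 v - 4 * k5 v + (2 * s3 v + 4 * s5 v) ^ 2 / 2)| := abs_add_le _ _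
    _ ≤ C * ‖v‖ ^ 3 + 216 * ‖v‖ ^ 3 := add_le_add h1 h2
    _ = _ := by ring

theorem contDiffOn_La {r : ℝ} {sp sm : (ℂ × ℂ) × (ℝ × ℝ) → ℝ} (hc : Chd r sp sm) :
    ContDiffOn ℝ 4 (La sp) (ball 0 (min r (1 / 12))) := by
  have hin : ContDiffOn ℝ 4 (fun v : ℂ × ℂ => sp (v, (0 : ℝ × ℝ))) (ball 0 (min r (1 / 12))) := by
    have h1 : ContDiffOn ℝ 4 sp (ball 0 r) := hc.cp.of_le (by norm_num)
    refine h1.comp (by fun_prop) ?_
    intro v hv
    rw [mem_ball_zero_iff] at hv ⊢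
    rw [norm_pr]
    exact lt_of_lt_of_le hv (min_le_left _ _)
  have hcc : ContDiffOn ℝ 4 (fun v : ℂ × ℂ => cc sp (v, (0 : ℝ × ℝ)))
      (ball 0 (min r (1 / 12))) := by
    have h2 : ContDiff ℝ 4 (fun p : (ℂ × ℂ) × ℝ => zh p.1 p.2) := contDiff_zh.of_le le_top
    have h3 : ContDiffOn ℝ 4 (fun v : ℂ × ℂ => zh v (sp (v, (0 : ℝ × ℝ))))
        (ball 0 (min r (1 / 12))) :=
      h2.comp_contDiffOn (contDiffOn_id.prodMk hin)
    have h4 : ContDiffOn ℝ 4 (fun v : ℂ × ℂ => (zh v (sp (v, (0 : ℝ × ℝ)))).re)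
        (ball 0 (min r (1 / 12))) := Complex.reCLM.contDiff.comp_contDiffOn h3
    refine h4.congr ?_
    intro v _
    simp [cc]
  have hsg : ContDiffOn ℝ 4 sg (ball 0 (min r (1 / 12))) := by
    unfold sg
    refine ContDiffOn.norm ℝ ?_ ?_
    · fun_prop
    · intro v hv h0
      rw [mem_ball_zero_iff] at hv
      have h1 := sg_half v (le_of_lt (lt_of_lt_of_le hv (min_le_right _ _)))
      unfold sg at h1
      rw [h0, norm_zero] at h1
      linarith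
  have hh0 : ContDiffOn ℝ 4 h0 (ball 0 (min r (1 / 12))) := by
    have e1 : ContDiff ℝ 4 k3 := Complex.reCLM.contDiff.comp contDiff_fst
    have e2 : ContDiff ℝ 4 s3 := (Complex.imCLM.contDiff.comp contDiff_fst).neg
    have e3 : ContDiff ℝ 4 k5 := Complex.reCLM.contDiff.comp contDiff_snd
    have e4 : ContDiff ℝ 4 s5 := (Complex.imCLM.contDiff.comp contDiff_snd).neg
    unfold h0
    apply ContDiff.contDiffOn
    fun_prop
  unfold La
  exact (hcc.add hsg).sub (contDiffOn_const.mul hh0)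

theorem contDiff_L2 : ContDiff ℝ 4 L2 := by
  have e1 : ContDiff ℝ 4 k3 := Complex.reCLM.contDiff.comp contDiff_fst
  have e2 : ContDiff ℝ 4 s3 := (Complex.imCLM.contDiff.comp contDiff_fst).neg
  have e3 : ContDiff ℝ 4 k5 := Complex.reCLM.contDiff.comp contDiff_snd
  have e4 : ContDiff ℝ 4 s5 := (Complex.imCLM.contDiff.comp contDiff_snd).neg
  unfold L2
  fun_prop

theorem contDiffOn_Ps {r : ℝ} {sp sm : (ℂ × ℂ) × (ℝ × ℝ) → ℝ} (hc : Chd r sp sm) :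
    ContDiffOn ℝ 4 (Ps sp) (ball 0 (min r (1 / 12))) := by
  have h1 := contDiffOn_La hc
  have h2 : ContDiffOn ℝ 4 (fun v => La sp (-v)) (ball 0 (min r (1 / 12))) := by
    refine h1.comp contDiff_neg.contDiffOn ?_
    intro v hv
    rw [mem_ball_zero_iff] at hv ⊢
    rwa [norm_neg]
  unfold Ps
  exact ((h1.add h2).div_const 2).sub contDiff_L2.contDiffOn

/-- integrals of exponentials -/
theorem int_ee (c : ℝ) (hc : c ≠ 0) (h : ee (c * (2 * Real.pi)) = 1) (z : ℂ) :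
    ∫ u in (0 : ℝ)..(2 * Real.pi), (ee (c * u) * z).re = 0 := by
  have hc' : ((c : ℂ) * Complex.I) ≠ 0 :=
    mul_ne_zero (Complex.ofReal_ne_zero.2 hc) Complex.I_ne_zero
  have hd : ∀ u ∈ uIcc (0 : ℝ) (2 * Real.pi),
      HasDerivAt (fun s : ℝ => (ee (c * s) * (z / ((c : ℂ) * Complex.I))).re)
        ((ee (c * u) * z).re) u := by
    intro u _
    have h1 := (hasDerivAt_ee c u).mul_const (z / ((c : ℂ) * Complex.I))
    have h2 := Complex.reCLM.hasFDerivAt.comp_hasDerivAt u h1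
    have e : (c : ℂ) * Complex.I * ee (c * u) * (z / ((c : ℂ) * Complex.I)) = ee (c * u) * z := by
      rw [mul_comm ((c : ℂ) * Complex.I) (ee (c * u)), mul_assoc, mul_div_cancel₀ z hc']
    rw [e] at h2
    exact h2
  have hcont : Continuous (fun u : ℝ => (ee (c * u) * z).re) := by
    have := continuous_ee
    fun_prop
  rw [intervalIntegral.integral_eq_sub_of_hasDerivAt hd (hcont.intervalIntegrable _ _)]
  simp only [mul_zero]
  rw [h, ee_zero]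
  ring

theorem ee_four_pi : ee (2 * (2 * Real.pi)) = 1 := by
  have := ee_int 2 0
  simpa [ee_zero] using this

theorem ee_ten : ee (-10 * (2 * Real.pi)) = 1 := by
  have := ee_int (-10) 0
  simpa [ee_zero] using this

theorem L2_rot (x : ℂ × ℂ) (u : ℝ) : L2 (rot u x) =
    (ee (2 * u) * (27 * (x.1 * (starRingEnd ℂ) x.2))).re
      + (ee (-10 * u) * (-9 * x.2 ^ 2)).re := by
  have e1 : k3 (rot u x) * k5 (rot u x) + s3 (rot u x) * s5 (rot u x) =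
      ((rot u x).1 * (starRingEnd ℂ) (rot u x).2).re := by
    simp [k3, k5, s3, s5, Complex.mul_re]
  have e2 : k5 (rot u x) ^ 2 - s5 (rot u x) ^ 2 = ((rot u x).2 ^ 2).re := by
    simp [k5, s5, pow_two, Complex.mul_re]
  have e3 : (rot u x).1 * (starRingEnd ℂ) (rot u x).2 =
      ee (2 * u) * (x.1 * (starRingEnd ℂ) x.2) := by
    have : ee (2 * u) = ee (-3 * u) * (starRingEnd ℂ) (ee (-5 * u)) := by
      rw [← ee_neg, ← ee_add]; congr 1; ring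
    rw [this]
    simp only [rot, map_mul]
    ring
  have e4 : (rot u x).2 ^ 2 = ee (-10 * u) * x.2 ^ 2 := by
    have : ee (-10 * u) = ee (-5 * u) * ee (-5 * u) := by
      rw [← ee_add]; congr 1; ring
    rw [this]
    simp only [rot]
    ring
  unfold L2
  rw [e1, e2, e3, e4]
  have e5 : ee (2 * u) * (27 * (x.1 * (starRingEnd ℂ) x.2)) =
      ((27 : ℝ) : ℂ) * (ee (2 * u) * (x.1 * (starRingEnd ℂ) x.2)) := by push_cast; ring
  have e6 : ee (-10 * u) * (-9 * x.2 ^ 2) = ((-9 : ℝ) : ℂ) * (ee (-10 * u) * x.2 ^ 2) := by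
    push_cast; ring
  rw [e5, e6, Complex.re_ofReal_mul, Complex.re_ofReal_mul]
  ring

theorem int_L2 (x : ℂ × ℂ) : ∫ u in (0 : ℝ)..(2 * Real.pi), L2 (rot u x) = 0 := by
  simp only [L2_rot]
  have c1 : Continuous (fun u : ℝ => (ee (2 * u) * (27 * (x.1 * (starRingEnd ℂ) x.2))).re) := by
    have := continuous_ee
    fun_prop
  have c2 : Continuous (fun u : ℝ => (ee (-10 * u) * (-9 * x.2 ^ 2)).re) := by
    have := continuous_ee
    fun_prop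
  rw [intervalIntegral.integral_add (c1.intervalIntegrable _ _) (c2.intervalIntegrable _ _),
    int_ee 2 (by norm_num) ee_four_pi, int_ee (-10) (by norm_num) ee_ten, add_zero]

theorem cont_comp {f : ℂ × ℂ → ℝ} {ρ : ℝ} (hf : ContinuousOn f (ball 0 ρ)) (x : ℂ × ℂ)
    (hx : ‖x‖ < ρ) : Continuous (fun u => f (rot u x)) := by
  rw [← continuousOn_univ]
  refine hf.comp (continuous_rot x).continuousOn ?_
  intro u _
  rw [mem_ball_zero_iff, norm_rot]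
  exact hx

theorem tB_eq {r : ℝ} {sp sm : (ℂ × ℂ) × (ℝ × ℝ) → ℝ} (hc : Chd r sp sm) (x : ℂ × ℂ)
    (hx : ‖x‖ < min r (1 / 12)) :
    tB sp x = ∫ u in (0 : ℝ)..(2 * Real.pi), Ps sp (rot u x) := by
  have cL : Continuous (fun u => La sp (rot u x)) :=
    cont_comp (contDiffOn_La hc).continuousOn x hx
  have cL' : Continuous (fun u => La sp (-rot u x)) := by
    have h := cont_comp (contDiffOn_La hc).continuousOn (-x) (by rwa [norm_neg])
    simpa only [rot_neg] using h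
  have cP : Continuous (fun u => Ps sp (rot u x)) :=
    cont_comp (contDiffOn_Ps hc).continuousOn x hx
  have c2 : Continuous (fun u => L2 (rot u x)) := contDiff_L2.continuous.comp (continuous_rot x)
  have e0 : tB sp x = ∫ u in (0 : ℝ)..(2 * Real.pi), La sp (rot u x) := rfl
  have e1 : ∫ u in (0 : ℝ)..(2 * Real.pi), La sp (-rot u x) =
      ∫ u in (0 : ℝ)..(2 * Real.pi), La sp (rot u x) := by
    have := integral_shift (fun u => La sp (rot u x)) (fun t => by simp only [rot_per]) Real.pi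
    rw [← this]
    simp only [rot_pi]
  have e2 : ∀ u, Ps sp (rot u x) = (1 / 2) * La sp (rot u x) + (1 / 2) * La sp (-rot u x)
      - L2 (rot u x) := by
    intro u; unfold Ps; ring
  simp only [e2]
  rw [intervalIntegral.integral_sub, intervalIntegral.integral_add,
    intervalIntegral.integral_const_mul, intervalIntegral.integral_const_mul, e1, int_L2, e0]
  · ring
  · exact ((continuous_const.mul cL).intervalIntegrable _ _)
  · exact ((continuous_const.mul cL').intervalIntegrable _ _)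
  · exact (((continuous_const.mul cL).add (continuous_const.mul cL')).intervalIntegrable _ _)
  · exact c2.intervalIntegrable _ _

theorem Ps_cubic {sp : (ℂ × ℂ) × (ℝ × ℝ) → ℝ} {C r₁ : ℝ}
    (h : ∀ p ∈ ball (0 : (ℂ × ℂ) × (ℝ × ℝ)) r₁, |cc sp p - tcc p| ≤ C * ‖p‖ ^ 3)
    (v : ℂ × ℂ) (hv : ‖v‖ < r₁) (hv2 : ‖v‖ ≤ 1 / 12) :
    |Ps sp v| ≤ (C + 216) * ‖v‖ ^ 3 := by
  have a := La_taylor h v hv hv2
  have b := La_taylor h (-v) (by rwa [norm_neg]) (by rwa [norm_neg])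
  rw [norm_neg, L2_neg] at b
  have ek3 : k3 (-v) = -k3 v := by simp [k3]
  have ek5 : k5 (-v) = -k5 v := by simp [k5]
  rw [ek3, ek5] at b
  rw [abs_le] at a b ⊢
  unfold Ps
  constructor <;> linarith [a.1, a.2, b.1, b.2]

theorem hTBA (h₁ : StJet) (h₂ : StSof) (h₃ : StEvn) (h₄ : StQua) : StTba := by
  intro r sp sm hc
  obtain ⟨C₁, r₁, hC₁, hr₁, hr₁r, hj⟩ := h₁ r sp sm hc
  have hj' : ∀ p ∈ ball (0 : (ℂ × ℂ) × (ℝ × ℝ)) r₁, |cc sp p - tcc p| ≤ C₁ * ‖p‖ ^ 3 :=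
    fun p hp => (hj p hp).2.2
  obtain ⟨C₄, r₄, hC₄, hr₄, hq⟩ := h₄ r sp sm hc
  set ρ := min r₁ (1 / 12) with hρ
  have hρ0 : 0 < ρ := lt_min hr₁ (by norm_num)
  have hρr : ρ ≤ min r (1 / 12) := le_min ((min_le_left _ _).trans hr₁r) (min_le_right _ _)
  have cP : ContDiffOn ℝ 4 (Ps sp) (ball 0 ρ) :=
    (contDiffOn_Ps hc).mono (ball_subset_ball hρr)
  obtain ⟨C₃, r₃, hC₃, hr₃, hr₃ρ, he⟩ := h₃ (ℂ × ℂ) (Ps sp) ρ (C₁ + 216) hρ0 cP (Ps_neg sp)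
    (fun v hv => by
      rw [mem_ball_zero_iff] at hv
      exact Ps_cubic hj' v (lt_of_lt_of_le hv (min_le_left _ _))
        (le_of_lt (lt_of_lt_of_le hv (min_le_right _ _))))
  obtain ⟨C₂, r₂, hC₂, hr₂, hr₂3, -, hs⟩ := h₂ (ℂ × ℂ) (Ps sp) r₃ C₃ 4 hr₃ (by norm_num) le_rfl
    (cP.mono (ball_subset_ball hr₃ρ)) he
  refine ⟨C₄ + 16 * Real.pi * C₂, min (r₂ / 2) r₄, ?_, lt_min (by positivity) hr₄, ?_⟩
  · have := Real.pi_pos
    positivity
  intro x hx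
  have hx2 : ‖x‖ < r₂ := by
    have := hx.trans (min_le_left _ _)
    linarith
  have hx4 : ‖x‖ ≤ r₄ := hx.trans (min_le_right _ _)
  have hy : ‖((x.1, (0 : ℂ)) : ℂ × ℂ)‖ = ‖x.1‖ := by rw [Prod.norm_def]; simp
  have hyx : ‖((x.1, (0 : ℂ)) : ℂ × ℂ)‖ ≤ ‖x‖ := by rw [hy]; exact fst_le x
  have hlt : ∀ y : ℂ × ℂ, ‖y‖ ≤ ‖x‖ → ‖y‖ < min r (1 / 12) := fun y h =>
    lt_of_lt_of_le (lt_of_le_of_lt h hx2) ((hr₂3.trans hr₃ρ).trans hρr)
  have hq' := hq x.1 ((fst_le x).trans hx4)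
  rw [tB_eq hc (x.1, 0) (hlt _ hyx)] at hq'
  rw [tB_eq hc x (hlt _ le_rfl)]
  have c1 : Continuous (fun u => Ps sp (rot u x)) :=
    cont_comp (contDiffOn_Ps hc).continuousOn x (hlt _ le_rfl)
  have c2 : Continuous (fun u => Ps sp (rot u (x.1, (0 : ℂ)))) :=
    cont_comp (contDiffOn_Ps hc).continuousOn (x.1, (0 : ℂ)) (hlt _ hyx)
  have hsub : ‖x - (x.1, (0 : ℂ))‖ = ‖x.2‖ := by
    rw [Prod.norm_def]; simp
  have hpt : ∀ u : ℝ, Ps sp (rot u (x.1, (0 : ℂ))) - C₂ * (‖x.2‖ * (2 * ‖x‖) ^ 3) ≤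
      Ps sp (rot u x) := by
    intro u
    have a := hs (rot u x) (by rw [mem_ball_zero_iff, norm_rot]; exact hx2)
      (rot u (x.1, (0 : ℂ))) (by rw [mem_ball_zero_iff, norm_rot]; exact lt_of_le_of_lt hyx hx2)
    rw [← rot_sub, norm_rot, norm_rot, norm_rot, hsub] at a
    have b : (‖x‖ + ‖((x.1, (0 : ℂ)) : ℂ × ℂ)‖) ^ (4 - 1) ≤ (2 * ‖x‖) ^ 3 := by
      apply pow_le_pow_left₀ (by positivity)
      linarith
    have c : C₂ * (‖x.2‖ * (‖x‖ + ‖((x.1, (0 : ℂ)) : ℂ × ℂ)‖) ^ (4 - 1)) ≤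
        C₂ * (‖x.2‖ * (2 * ‖x‖) ^ 3) :=
      mul_le_mul_of_nonneg_left (mul_le_mul_of_nonneg_left b (norm_nonneg _)) hC₂
    have d := (abs_le.1 (a.trans c)).1
    linarith
  have hint : (∫ u in (0 : ℝ)..(2 * Real.pi), (Ps sp (rot u (x.1, (0 : ℂ)))
      - C₂ * (‖x.2‖ * (2 * ‖x‖) ^ 3))) ≤ ∫ u in (0 : ℝ)..(2 * Real.pi), Ps sp (rot u x) := by
    apply intervalIntegral.integral_mono_on (by linarith [Real.pi_pos])
      ((c2.sub continuous_const).intervalIntegrable _ _) (c1.intervalIntegrable _ _)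
    intro u _
    exact hpt u
  rw [intervalIntegral.integral_sub (c2.intervalIntegrable _ _)
    (continuous_const.intervalIntegrable _ _), intervalIntegral.integral_const] at hint
  have e1 : ‖x.1‖ ^ 5 ≤ ‖x‖ ^ 5 := pow_le_pow_left₀ (norm_nonneg _) (fst_le x) 5
  have e2 : 0 ≤ ‖x.2‖ * ‖x‖ ^ 3 := by positivity
  have e3 : 0 ≤ ‖x‖ ^ 5 := by positivity
  have e4 : C₄ * ‖x.1‖ ^ 5 ≤ C₄ * ‖x‖ ^ 5 := mul_le_mul_of_nonneg_left e1 hC₄.le
  have e5 : 0 ≤ C₄ * (‖x.2‖ * ‖x‖ ^ 3) := mul_nonneg hC₄.le e2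
  have e6 : 0 ≤ 16 * Real.pi * C₂ * ‖x‖ ^ 5 := by
    have := Real.pi_pos
    positivity
  have e7 : (2 * Real.pi - 0) • (C₂ * (‖x.2‖ * (2 * ‖x‖) ^ 3)) =
      16 * Real.pi * C₂ * (‖x.2‖ * ‖x‖ ^ 3) := by
    rw [smul_eq_mul]; ring
  rw [e7] at hint
  have e8 : (C₄ + 16 * Real.pi * C₂) * (‖x.2‖ * ‖x‖ ^ 3 + ‖x‖ ^ 5) =
      C₄ * (‖x.2‖ * ‖x‖ ^ 3) + C₄ * ‖x‖ ^ 5 + 16 * Real.pi * C₂ * (‖x.2‖ * ‖x‖ ^ 3)
        + 16 * Real.pi * C₂ * ‖x‖ ^ 5 := by ring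
  rw [e8]
  linarith

end Pool.Agent.Helper34.LT
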